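import Mathlib

/-!
# Isochronous centers of Hamiltonian systems of even degree

In the `(u, v)`-plane put `H₀ = (u² + v²) (1 + u)` and `t = arg (u + i v) - log (1 + u) / 2`.  Then
`dH₀ ∧ dt = (2 + 3 u + v) du ∧ dv`, so for this area form the Hamiltonian system of `H₀` has an
isochronous center at the origin (`t` has derivative `1` along the orbits).  The substitution
`x = 1 / (2 + 3 u + v)`, `y + x ^ (2 k) = (1 + u) (2 + 3 u + v)³` turns the area form into
`dx ∧ dy` and `H₀` into the polynomial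
`H = x s (x² (x³ s - 1)² + (1 + x - 3 x⁴ s)²)`, `s = y + x ^ (2 k)`, of odd degree `6 k + 9`.
The map `(u + i v) * exp ((1 - i) / 2 * log (1 + u))` linearises the flow near the center.
-/

open MvPolynomial Topology

namespace Pool.Agent.Results.MP_45b009_an.EvenDegree

noncomputable section

/-! ### Definitions used in the statement -/

/-- The Hamiltonian vector field `ẋ = -H_y`, `ẏ = H_x` of `H ∈ ℝ[x, y]` (`x = X 0`, `y = X 1`). -/
def hamField (H : MvPolynomial (Fin 2) ℝ) (z : ℝ × ℝ) : ℝ × ℝ :=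
  (-(eval ![z.1, z.2] (pderiv 1 H)), eval ![z.1, z.2] (pderiv 0 H))

/-- The degree `max (deg H_x) (deg H_y)` of the Hamiltonian vector field. -/
def fieldDegree (H : MvPolynomial (Fin 2) ℝ) : ℕ :=
  max (pderiv 0 H).totalDegree (pderiv 1 H).totalDegree

/-- `γ` is a periodic solution of the system, defined on all of `ℝ`, with minimal period `T`. -/
def IsPeriodicSolution (H : MvPolynomial (Fin 2) ℝ) (γ : ℝ → ℝ × ℝ) (T : ℝ) : Prop :=
  (∀ t, HasDerivAt γ (hamField H (γ t)) t) ∧ 0 < T ∧ (∀ t, γ (t + T) = γ t) ∧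
    ∀ s, 0 < s → s < T → γ s ≠ γ 0

/-- The closed curve `C` surrounds `p`: the point `p` is not on `C` and lies in a bounded connected
component of the complement of `C`. -/
def Surrounds (C : Set (ℝ × ℝ)) (p : ℝ × ℝ) : Prop :=
  p ∉ C ∧ Bornology.IsBounded (connectedComponentIn Cᶜ p)

/-- `p` is an isochronous center: a singular point with a punctured neighbourhood `U \ {p}` that is
filled by periodic orbits, each surrounding `p` and all with the same minimal period `T`. -/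
def IsIsochronousCenter (H : MvPolynomial (Fin 2) ℝ) (p : ℝ × ℝ) : Prop :=
  hamField H p = 0 ∧ ∃ T : ℝ, ∃ U ∈ 𝓝 p, ∀ z ∈ U, z ≠ p →
    ∃ γ : ℝ → ℝ × ℝ, γ 0 = z ∧ IsPeriodicSolution H γ T ∧ Set.range γ ⊆ U ∧
      Surrounds (Set.range γ) p

/-! ### The example -/

/-- The polynomial `y + x ^ (2 k)`. -/
def Sk (k : ℕ) : MvPolynomial (Fin 2) ℝ := X 1 + X 0 ^ (2 * k)

/-- The Hamiltonian: with `s = y + x ^ (2 k)` it is
`x s (x² (x³ s - 1)² + (1 + x - 3 x⁴ s)²)`. -/
def Hk (k : ℕ) : MvPolynomial (Fin 2) ℝ :=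
  X 0 * Sk k * (X 0 ^ 2 * (X 0 ^ 3 * Sk k - 1) ^ 2 + (1 + X 0 - C 3 * X 0 ^ 4 * Sk k) ^ 2)

/-- The `s`-derivative of `x s (x² (x³ s - 1)² + (1 + x - 3 x⁴ s)²)`. -/
def Gs (x s : ℝ) : ℝ :=
  x * (x ^ 2 * (x ^ 3 * s - 1) ^ 2 + (1 + x - 3 * x ^ 4 * s) ^ 2) +
    x * s * (2 * x ^ 2 * (x ^ 3 * s - 1) * x ^ 3 - 2 * (1 + x - 3 * x ^ 4 * s) * (3 * x ^ 4))

/-- The `x`-derivative of `x s (x² (x³ s - 1)² + (1 + x - 3 x⁴ s)²)`. -/
def Gx (x s : ℝ) : ℝ :=
  s * (x ^ 2 * (x ^ 3 * s - 1) ^ 2 + (1 + x - 3 * x ^ 4 * s) ^ 2) +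
    x * s * (2 * x * (x ^ 3 * s - 1) ^ 2 + 2 * x ^ 2 * (x ^ 3 * s - 1) * (3 * x ^ 2 * s) +
      2 * (1 + x - 3 * x ^ 4 * s) * (1 - 12 * x ^ 3 * s))

lemma eval_pderiv_one (k : ℕ) (x y : ℝ) :
    eval ![x, y] (pderiv 1 (Hk k)) = Gs x (y + x ^ (2 * k)) := by
  simp [Hk, Sk, Gs, pderiv_X]
  ring

lemma eval_pderiv_zero (k : ℕ) (x y : ℝ) :
    eval ![x, y] (pderiv 0 (Hk k)) =
      Gx x (y + x ^ (2 * k)) + Gs x (y + x ^ (2 * k)) * (2 * k * x ^ (2 * k - 1)) := by
  simp [Hk, Sk, Gs, Gx, pderiv_X]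
  ring

/-! ### The linearising map in the `(u, v)`-plane -/

/-- `n = 2 + 3 u + v`. -/
def nn (w : ℂ) : ℝ := 2 + 3 * w.re + w.im

/-- The vector field in the `(u, v)`-plane. -/
def V (w : ℂ) : ℂ :=
  ⟨-(2 * w.im * (1 + w.re)) / nn w, (3 * w.re ^ 2 + 2 * w.re + w.im ^ 2) / nn w⟩

/-- The exponent. -/
def μ : ℂ := ⟨1 / 2, -(1 / 2)⟩

/-- The factor. -/
def gfun (w : ℂ) : ℂ := Complex.exp (μ * (Real.log (1 + w.re) : ℂ))

/-- The linearising map. -/
def Phi (w : ℂ) : ℂ := w * gfun w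

lemma hasFDerivAt_gfun {w : ℂ} (hw : 0 < 1 + w.re) :
    HasFDerivAt gfun (gfun w • (μ • (Complex.ofRealCLM.comp ((1 + w.re)⁻¹ • Complex.reCLM)))) w := by
  have h1 : HasFDerivAt (fun w : ℂ => 1 + w.re) Complex.reCLM w :=
    (Complex.reCLM.hasFDerivAt (x := w)).const_add 1
  have h2 : HasFDerivAt (fun w : ℂ => Real.log (1 + w.re)) ((1 + w.re)⁻¹ • Complex.reCLM) w :=
    h1.log hw.ne'
  have h3 : HasFDerivAt (fun w : ℂ => (Real.log (1 + w.re) : ℂ))
      (Complex.ofRealCLM.comp ((1 + w.re)⁻¹ • Complex.reCLM)) w :=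
    (Complex.ofRealCLM.hasFDerivAt).comp w h2
  have h4 := (h3.const_mul μ).cexp
  exact h4

lemma hasFDerivAt_Phi {w : ℂ} (hw : 0 < 1 + w.re) :
    HasFDerivAt Phi (w • (gfun w • (μ • (Complex.ofRealCLM.comp
      ((1 + w.re)⁻¹ • Complex.reCLM)))) + gfun w • ContinuousLinearMap.id ℝ ℂ) w :=
  (hasFDerivAt_id w).mul (hasFDerivAt_gfun hw)

lemma Phi_V {w : ℂ} (hw : 0 < 1 + w.re) (hn : nn w ≠ 0) :
    (w • (gfun w • (μ • (Complex.ofRealCLM.comp
      ((1 + w.re)⁻¹ • Complex.reCLM)))) + gfun w • ContinuousLinearMap.id ℝ ℂ) (V w) =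
      Complex.I * Phi w := by
  have key : w * (μ * (((1 + w.re)⁻¹ * (V w).re : ℝ) : ℂ)) + V w = Complex.I * w := by
    have h1 : (1 + w.re)⁻¹ * (V w).re = -(2 * w.im) / nn w := by
      unfold V
      field_simp
    rw [h1]
    apply Complex.ext
    · simp [μ, V]
      field_simp
      unfold nn
      ring
    · simp [μ, V]
      field_simp
      unfold nn
      ring
  have : (w • (gfun w • (μ • (Complex.ofRealCLM.comp
      ((1 + w.re)⁻¹ • Complex.reCLM)))) + gfun w • ContinuousLinearMap.id ℝ ℂ) (V w) =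
      gfun w * (w * (μ * (((1 + w.re)⁻¹ * (V w).re : ℝ) : ℂ)) + V w) := by
    simp
    ring
  rw [this, key, Phi]
  ring

lemma Phi_zero : Phi 0 = 0 := by
  unfold Phi
  rw [zero_mul]

lemma hasFDerivAt_Phi_zero :
    HasFDerivAt Phi ((ContinuousLinearEquiv.refl ℝ ℂ : ℂ ≃L[ℝ] ℂ) : ℂ →L[ℝ] ℂ) 0 := by
  have h := hasFDerivAt_Phi (w := 0) (by simp)
  have hg : gfun 0 = 1 := by simp [gfun]
  refine h.congr_fderiv ?_
  ext z
  simp [hg]

lemma contDiffAt_Phi_zero : ContDiffAt ℝ 1 Phi 0 := by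
  have h1 : ContDiffAt ℝ 1 (fun w : ℂ => 1 + w.re) 0 :=
    contDiffAt_const.add Complex.reCLM.contDiff.contDiffAt
  have h2 : ContDiffAt ℝ 1 (fun w : ℂ => Real.log (1 + w.re)) 0 := h1.log (by simp)
  have h3 : ContDiffAt ℝ 1 (fun w : ℂ => (Real.log (1 + w.re) : ℂ)) 0 :=
    Complex.ofRealCLM.contDiff.contDiffAt.comp 0 h2
  have h4 : ContDiffAt ℝ 1 gfun 0 := (contDiffAt_const.mul h3).cexp
  exact contDiffAt_id.mul h4

/-- The local inverse of the linearising map. -/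
lemma exists_local : ∃ (e : OpenPartialHomeomorph ℂ ℂ) (ε : ℝ), 0 < ε ∧ (∀ w, e w = Phi w) ∧
    0 ∈ e.source ∧ Metric.closedBall 0 ε ⊆ e.target ∧
    ∀ ζ ∈ Metric.closedBall (0 : ℂ) ε, DifferentiableAt ℝ e.symm ζ ∧ 0 < nn (e.symm ζ) ∧
      0 < 1 + (e.symm ζ).re := by
  have hne : (1 : WithTop ℕ∞) ≠ 0 := one_ne_zero
  let e := contDiffAt_Phi_zero.toOpenPartialHomeomorph Phi hasFDerivAt_Phi_zero hne
  have he : ∀ w, e w = Phi w := fun w => rfl
  have h0 : (0 : ℂ) ∈ e.source :=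
    contDiffAt_Phi_zero.mem_toOpenPartialHomeomorph_source hasFDerivAt_Phi_zero hne
  have ht : (0 : ℂ) ∈ e.target := by
    have := e.map_source h0
    rwa [he, Phi_zero] at this
  have hs0 : e.symm 0 = 0 := by
    have := e.left_inv h0
    rwa [he, Phi_zero] at this
  have hc : ContDiffAt ℝ 1 e.symm 0 := by
    have := contDiffAt_Phi_zero.to_localInverse hasFDerivAt_Phi_zero hne
    rw [Phi_zero] at this
    exact this
  have h1 : ∀ᶠ ζ in 𝓝 (0 : ℂ), ζ ∈ e.target := e.open_target.mem_nhds ht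
  have h2 : ∀ᶠ ζ in 𝓝 (0 : ℂ), DifferentiableAt ℝ e.symm ζ := by
    filter_upwards [hc.eventually (by simp)] with ζ hζ
    exact hζ.differentiableAt one_ne_zero
  have hcont : ContinuousAt e.symm 0 := hc.continuousAt
  have h3 : ∀ᶠ ζ in 𝓝 (0 : ℂ), 0 < nn (e.symm ζ) := by
    have : ContinuousAt (fun ζ => nn (e.symm ζ)) 0 := by
      unfold nn
      fun_prop
    apply this.eventually_const_lt
    simp [nn, hs0]
  have h4 : ∀ᶠ ζ in 𝓝 (0 : ℂ), 0 < 1 + (e.symm ζ).re := by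
    have : ContinuousAt (fun ζ => 1 + (e.symm ζ).re) 0 := by
      fun_prop
    apply this.eventually_const_lt
    simp [hs0]
  obtain ⟨ε, hε, hb⟩ := Metric.nhds_basis_closedBall.eventually_iff.1
    (h1.and (h2.and (h3.and h4)))
  exact ⟨e, ε, hε, he, h0, fun ζ hζ => (hb hζ).1, fun ζ hζ => (hb hζ).2⟩

/-- The curves `e.symm (exp (i t) ζ₀)` solve the differential equation `w' = V w`. -/
lemma deriv_curve {e : OpenPartialHomeomorph ℂ ℂ} (he : ∀ w, e w = Phi w) {ζ : ℂ}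
    (ht : ζ ∈ e.target) (hd : DifferentiableAt ℝ e.symm ζ) (hn : 0 < nn (e.symm ζ))
    (h1 : 0 < 1 + (e.symm ζ).re) : (fderiv ℝ e.symm ζ) (Complex.I * ζ) = V (e.symm ζ) := by
  have hD := hasFDerivAt_Phi h1
  have hΦ : Phi (e.symm ζ) = ζ := by rw [← he]; exact e.right_inv ht
  have hcomp : HasFDerivAt (fun w => e.symm (Phi w)) ((fderiv ℝ e.symm ζ).comp
      ((e.symm ζ) • (gfun (e.symm ζ) • (μ • (Complex.ofRealCLM.comp
      ((1 + (e.symm ζ).re)⁻¹ • Complex.reCLM)))) +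
        gfun (e.symm ζ) • ContinuousLinearMap.id ℝ ℂ)) (e.symm ζ) := by
    have h2 : HasFDerivAt e.symm (fderiv ℝ e.symm ζ) (Phi (e.symm ζ)) := by
      rw [hΦ]
      exact hd.hasFDerivAt
    exact h2.comp _ hD
  have hid : HasFDerivAt (fun w => e.symm (Phi w)) (ContinuousLinearMap.id ℝ ℂ) (e.symm ζ) := by
    have h3 : (fun w => e.symm (Phi w)) =ᶠ[𝓝 (e.symm ζ)] id := by
      filter_upwards [e.open_source.mem_nhds (e.map_target ht)] with w hw
      rw [← he]
      exact e.left_inv hw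
    exact (hasFDerivAt_id _).congr_of_eventuallyEq h3
  have := congrArg (fun L : ℂ →L[ℝ] ℂ => L (V (e.symm ζ))) (hcomp.unique hid)
  simp only [ContinuousLinearMap.comp_apply, ContinuousLinearMap.id_apply] at this
  rw [Phi_V h1 hn.ne', hΦ] at this
  exact this

/-! ### Passing to the `(x, y)`-plane -/

/-- The map from the `(u, v)`-plane to the `(x, y)`-plane. -/
def E (k : ℕ) (w : ℂ) : ℝ × ℝ :=
  ((nn w)⁻¹, (1 + w.re) * nn w ^ 3 - (nn w)⁻¹ ^ (2 * k))

/-- The map from the `(x, y)`-plane to the `(u, v)`-plane. -/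
def W (k : ℕ) (z : ℝ × ℝ) : ℂ :=
  ⟨z.1 ^ 3 * (z.2 + z.1 ^ (2 * k)) - 1, z.1⁻¹ + 1 - 3 * (z.1 ^ 3 * (z.2 + z.1 ^ (2 * k)))⟩

lemma W_E (k : ℕ) {w : ℂ} (hw : nn w ≠ 0) : W k (E k w) = w := by
  apply Complex.ext
  · simp only [W, E]
    field_simp
    ring
  · simp only [W, E]
    have : (nn w)⁻¹ ^ 3 * ((1 + w.re) * nn w ^ 3 - (nn w)⁻¹ ^ (2 * k) + (nn w)⁻¹ ^ (2 * k)) =
        1 + w.re := by
      field_simp
      ring
    rw [this, inv_inv]
    unfold nn
    ring

lemma nn_W (k : ℕ) (z : ℝ × ℝ) : nn (W k z) = z.1⁻¹ := by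
  simp only [nn, W]
  ring

lemma E_W (k : ℕ) {z : ℝ × ℝ} (hz : z.1 ≠ 0) : E k (W k z) = z := by
  have h := nn_W k z
  have hre : 1 + (W k z).re = z.1 ^ 3 * (z.2 + z.1 ^ (2 * k)) := by
    simp only [W]
    ring
  refine Prod.ext ?_ ?_
  · simp only [E, h, inv_inv]
  · simp only [E, h, inv_inv, hre]
    field_simp
    ring

lemma hasDerivAt_E (k : ℕ) {w : ℝ → ℂ} {t : ℝ} (hw : HasDerivAt w (V (w t)) t)
    (hn : nn (w t) ≠ 0) : HasDerivAt (fun t => E k (w t)) (hamField (Hk k) (E k (w t))) t := by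
  have hu : HasDerivAt (fun t => (w t).re) (V (w t)).re t :=
    (Complex.reCLM.hasFDerivAt.comp_hasDerivAt t hw)
  have hv : HasDerivAt (fun t => (w t).im) (V (w t)).im t :=
    (Complex.imCLM.hasFDerivAt.comp_hasDerivAt t hw)
  have hN : HasDerivAt (fun t => nn (w t)) (3 * (V (w t)).re + (V (w t)).im) t :=
    ((hu.const_mul 3).const_add 2).add hv
  have hx : HasDerivAt (fun t => (nn (w t))⁻¹)
      (-(3 * (V (w t)).re + (V (w t)).im) / nn (w t) ^ 2) t := hN.inv hn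
  have hs : HasDerivAt (fun t => (1 + (w t).re) * nn (w t) ^ 3)
      ((V (w t)).re * nn (w t) ^ 3 + (1 + (w t).re) *
        ((3 : ℕ) * nn (w t) ^ (3 - 1) * (3 * (V (w t)).re + (V (w t)).im))) t :=
    (hu.const_add 1).mul (hN.pow 3)
  have hp := hx.pow (2 * k)
  have hy := hs.sub hp
  have hfin := hx.prodMk hy
  have heq : hamField (Hk k) (E k (w t)) =
      (-(3 * (V (w t)).re + (V (w t)).im) / nn (w t) ^ 2,
        (V (w t)).re * nn (w t) ^ 3 + (1 + (w t).re) *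
        ((3 : ℕ) * nn (w t) ^ (3 - 1) * (3 * (V (w t)).re + (V (w t)).im)) -
        ((2 * k : ℕ) * (nn (w t))⁻¹ ^ (2 * k - 1) *
          (-(3 * (V (w t)).re + (V (w t)).im) / nn (w t) ^ 2))) := by
    have hS : (E k (w t)).2 + (E k (w t)).1 ^ (2 * k) = (1 + (w t).re) * nn (w t) ^ 3 := by
      simp only [E]
      ring
    have hX : (E k (w t)).1 = (nn (w t))⁻¹ := rfl
    have hGs : -Gs (nn (w t))⁻¹ ((1 + (w t).re) * nn (w t) ^ 3) =
        -(3 * (V (w t)).re + (V (w t)).im) / nn (w t) ^ 2 := by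
      simp only [Gs, V]
      field_simp
      unfold nn
      ring
    have hGx : Gx (nn (w t))⁻¹ ((1 + (w t).re) * nn (w t) ^ 3) =
        (V (w t)).re * nn (w t) ^ 3 + (1 + (w t).re) *
        ((3 : ℕ) * nn (w t) ^ (3 - 1) * (3 * (V (w t)).re + (V (w t)).im)) := by
      simp only [Gx, V]
      push_cast
      field_simp
      unfold nn
      ring
    unfold hamField
    rw [eval_pderiv_one, eval_pderiv_zero, hS, hX, hGx]
    refine Prod.ext hGs ?_
    show _ + _ * _ = _ - _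
    rw [← hGs]
    push_cast
    ring
  rw [heq]
  exact hfin

lemma continuousAt_E (k : ℕ) {w : ℂ} (hw : nn w ≠ 0) : ContinuousAt (E k) w := by
  have h1 : ContinuousAt nn w := by
    unfold nn
    fun_prop
  have h2 : ContinuousAt (fun w => (nn w)⁻¹) w := h1.inv₀ hw
  have h3 : ContinuousAt (fun w : ℂ => 1 + w.re) w := by fun_prop
  exact h2.prodMk ((h3.mul (h1.pow 3)).sub (h2.pow (2 * k)))

lemma continuousOn_W (k : ℕ) : ContinuousOn (W k) {z : ℝ × ℝ | 0 < z.1} := by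
  intro z hz
  have hz' : z.1 ≠ 0 := ne_of_gt hz
  have h1 : ContinuousAt (fun z : ℝ × ℝ => z.1⁻¹) z := continuousAt_fst.inv₀ hz'
  have h2 : ContinuousAt (fun z : ℝ × ℝ => z.1 ^ 3 * (z.2 + z.1 ^ (2 * k)) - 1) z := by fun_prop
  have h3 : ContinuousAt (fun z : ℝ × ℝ =>
      z.1⁻¹ + 1 - 3 * (z.1 ^ 3 * (z.2 + z.1 ^ (2 * k)))) z := by
    exact (h1.add continuousAt_const).sub (by fun_prop)
  have h4 : ContinuousAt (fun z : ℝ × ℝ => ((z.1 ^ 3 * (z.2 + z.1 ^ (2 * k)) - 1 : ℝ) : ℂ) +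
      ((z.1⁻¹ + 1 - 3 * (z.1 ^ 3 * (z.2 + z.1 ^ (2 * k))) : ℝ) : ℂ) * Complex.I) z :=
    (Complex.continuous_ofReal.continuousAt.comp h2).add
      ((Complex.continuous_ofReal.continuousAt.comp h3).mul continuousAt_const)
  have h5 : W k = (fun z : ℝ × ℝ => ((z.1 ^ 3 * (z.2 + z.1 ^ (2 * k)) - 1 : ℝ) : ℂ) +
      ((z.1⁻¹ + 1 - 3 * (z.1 ^ 3 * (z.2 + z.1 ^ (2 * k))) : ℝ) : ℂ) * Complex.I) := by
    funext z
    exact Complex.mk_eq_add_mul_I _ _
  rw [h5]
  exact h4.continuousWithinAt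

/-- The center in the `(x, y)`-plane. -/
def pt (k : ℕ) : ℝ × ℝ := E k 0

theorem isochronous (k : ℕ) : IsIsochronousCenter (Hk k) (pt k) := by
  obtain ⟨e, ε, hε, he, h0, hball, hprop⟩ := exists_local
  have hs0 : e.symm 0 = 0 := by
    have := e.left_inv h0
    rwa [he, Phi_zero] at this
  have hn : ∀ ζ ∈ Metric.closedBall (0 : ℂ) ε, nn (e.symm ζ) ≠ 0 := fun ζ hζ =>
    (hprop ζ hζ).2.1.ne'
  -- injectivity of the parametrisation
  have hinj : ∀ ζ ∈ Metric.closedBall (0 : ℂ) ε, ∀ ζ' ∈ Metric.closedBall (0 : ℂ) ε,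
      E k (e.symm ζ) = E k (e.symm ζ') → ζ = ζ' := by
    intro ζ hζ ζ' hζ' h
    have h1 := congrArg (W k) h
    rw [W_E k (hn ζ hζ), W_E k (hn ζ' hζ')] at h1
    have h2 := congrArg e h1
    rwa [e.right_inv (hball hζ), e.right_inv (hball hζ')] at h2
  -- the open sets
  let D : ℝ → Set (ℝ × ℝ) := fun ρ =>
    {z | 0 < z.1} ∩ W k ⁻¹' (e.source ∩ e ⁻¹' Metric.ball 0 ρ)
  have hDopen : ∀ ρ, IsOpen (D ρ) := fun ρ =>
    (continuousOn_W k).isOpen_inter_preimage (isOpen_lt continuous_const continuous_fst)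
      (e.isOpen_inter_preimage Metric.isOpen_ball)
  have hDmem : ∀ ρ ≤ ε, ∀ ζ, ‖ζ‖ < ρ → E k (e.symm ζ) ∈ D ρ := by
    intro ρ hρ ζ hζ
    have hζ' : ζ ∈ Metric.closedBall (0 : ℂ) ε := by
      rw [mem_closedBall_zero_iff]
      exact (hζ.trans_le hρ).le
    refine ⟨?_, ?_, ?_⟩
    · exact inv_pos.2 (hprop ζ hζ').2.1
    · rw [W_E k (hn ζ hζ')]
      exact e.map_target (hball hζ')
    · show e (W k (E k (e.symm ζ))) ∈ Metric.ball (0 : ℂ) ρ
      rw [W_E k (hn ζ hζ'), e.right_inv (hball hζ'), mem_ball_zero_iff]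
      exact hζ
  have hDrep : ∀ ρ, ∀ z ∈ D ρ, ∃ ζ, ‖ζ‖ < ρ ∧ E k (e.symm ζ) = z := by
    rintro ρ z ⟨hz1, hz2, hz3⟩
    refine ⟨e (W k z), mem_ball_zero_iff.1 hz3, ?_⟩
    rw [e.left_inv hz2]
    exact E_W k (ne_of_gt hz1)
  have hpD : ∀ ρ, 0 < ρ → ρ ≤ ε → pt k ∈ D ρ := by
    intro ρ hρ hρε
    have := hDmem ρ hρε 0 (by rwa [norm_zero])
    rwa [hs0] at this
  have hexp : ∀ (t : ℝ) (ζ : ℂ), ‖Complex.exp (t * Complex.I) * ζ‖ = ‖ζ‖ := by
    intro t ζ
    rw [norm_mul, Complex.norm_exp_ofReal_mul_I, one_mul]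
  -- the solutions
  have hsol : ∀ ζ ∈ Metric.closedBall (0 : ℂ) ε, ∀ t : ℝ,
      HasDerivAt (fun t : ℝ => E k (e.symm (Complex.exp (t * Complex.I) * ζ)))
        (hamField (Hk k) (E k (e.symm (Complex.exp (t * Complex.I) * ζ)))) t := by
    intro ζ hζ t
    have hζt : Complex.exp (t * Complex.I) * ζ ∈ Metric.closedBall (0 : ℂ) ε := by
      rw [mem_closedBall_zero_iff] at hζ ⊢
      rwa [hexp]
    have h1 : HasDerivAt (fun t : ℝ => Complex.exp (t * Complex.I) * ζ)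
        (Complex.I * (Complex.exp (t * Complex.I) * ζ)) t := by
      have h2 : HasDerivAt (fun t : ℝ => (t : ℂ) * Complex.I) Complex.I t := by
        simpa using (Complex.ofRealCLM.hasDerivAt (x := t)).mul_const Complex.I
      have h3 := (h2.cexp).mul_const ζ
      refine h3.congr_deriv ?_
      ring
    have hd := (hprop _ hζt).1.hasFDerivAt.comp_hasDerivAt t h1
    rw [deriv_curve he (hball hζt) (hprop _ hζt).1 (hprop _ hζt).2.1 (hprop _ hζt).2.2] at hd
    exact hasDerivAt_E k (w := fun t : ℝ => e.symm (Complex.exp (t * Complex.I) * ζ)) hd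
      (hn _ hζt)
  refine ⟨?_, 2 * Real.pi, D ε, (hDopen ε).mem_nhds (hpD ε hε le_rfl), ?_⟩
  · -- the singular point
    have h := hsol 0 (by rw [mem_closedBall_zero_iff, norm_zero]; exact hε.le) 0
    simp only [mul_zero, hs0] at h
    exact h.unique (hasDerivAt_const _ _)
  intro z hz hzp
  obtain ⟨ζ, hζ, rfl⟩ := hDrep ε z hz
  have hζ0 : ζ ≠ 0 := by
    rintro rfl
    rw [hs0] at hzp
    exact hzp rfl
  have hρ : 0 < ‖ζ‖ := norm_pos_iff.2 hζ0
  have hζε : ζ ∈ Metric.closedBall (0 : ℂ) ε := by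
    rw [mem_closedBall_zero_iff]
    exact hζ.le
  have hmem : ∀ t : ℝ, Complex.exp (t * Complex.I) * ζ ∈ Metric.closedBall (0 : ℂ) ε := by
    intro t
    rw [mem_closedBall_zero_iff, hexp]
    exact hζ.le
  refine ⟨fun t : ℝ => E k (e.symm (Complex.exp (t * Complex.I) * ζ)), ?_, ⟨?_, ?_, ?_, ?_⟩,
    ?_, ?_, ?_⟩
  · simp
  · intro t
    exact hsol ζ hζε t
  · positivity
  · intro t
    have : Complex.exp (((t + 2 * Real.pi : ℝ) : ℂ) * Complex.I) =
        Complex.exp ((t : ℂ) * Complex.I) := by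
      push_cast
      rw [add_mul, Complex.exp_add, Complex.exp_two_pi_mul_I, mul_one]
    show E k (e.symm (Complex.exp (((t + 2 * Real.pi : ℝ) : ℂ) * Complex.I) * ζ)) = _
    rw [this]
  · intro s hs hs2 h
    have h1 := hinj _ (hmem s) _ (hmem 0) h
    have h2 := mul_right_cancel₀ hζ0 h1
    rw [Complex.ofReal_zero, zero_mul, Complex.exp_zero, Complex.exp_eq_one_iff] at h2
    obtain ⟨m, hm⟩ := h2
    have h3 : (s : ℂ) = ((m * (2 * Real.pi) : ℝ) : ℂ) := by
      have : (s : ℂ) * Complex.I = ((m * (2 * Real.pi) : ℝ) : ℂ) * Complex.I := by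
        rw [hm]
        push_cast
        ring
      exact mul_right_cancel₀ Complex.I_ne_zero this
    have h4 : s = m * (2 * Real.pi) := Complex.ofReal_injective h3
    have hpi := Real.pi_pos
    have h5 : (0 : ℝ) < m := by
      by_contra hcon
      push Not at hcon
      have : (m : ℝ) * (2 * Real.pi) ≤ 0 := mul_nonpos_of_nonpos_of_nonneg hcon (by positivity)
      linarith
    have h6 : (m : ℝ) < 1 := by
      by_contra hcon
      push Not at hcon
      have : 2 * Real.pi ≤ (m : ℝ) * (2 * Real.pi) := by nlinarith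
      linarith
    have h7 : 0 < m := by exact_mod_cast h5
    have h8 : m < 1 := by exact_mod_cast h6
    omega
  · rintro _ ⟨t, rfl⟩
    exact hDmem ε le_rfl _ (by rw [hexp]; exact hζ)
  · -- the orbit does not contain the center
    rintro ⟨t, ht⟩
    have h1 := hinj _ (hmem t) 0 (by rw [mem_closedBall_zero_iff, norm_zero]; exact hε.le)
      (by rw [hs0]; exact ht)
    have h2 := hexp t ζ
    rw [h1, norm_zero] at h2
    exact hρ.ne h2
  · -- the component of the center is bounded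
    set C : Set (ℝ × ℝ) :=
      Set.range (fun t : ℝ => E k (e.symm (Complex.exp (t * Complex.I) * ζ))) with hC
    let K : Set (ℝ × ℝ) := (fun ζ => E k (e.symm ζ)) '' Metric.closedBall 0 ‖ζ‖
    have hsub : Metric.closedBall (0 : ℂ) ‖ζ‖ ⊆ Metric.closedBall 0 ε :=
      Metric.closedBall_subset_closedBall hζ.le
    have hK : IsCompact K := by
      apply (isCompact_closedBall (0 : ℂ) ‖ζ‖).image_of_continuousOn
      intro ζ' hζ'
      have h1 : ContinuousAt e.symm ζ' := (hprop ζ' (hsub hζ')).1.continuousAt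
      exact ((continuousAt_E k (hn ζ' (hsub hζ'))).comp h1).continuousWithinAt
    have hDK : D ‖ζ‖ ⊆ K := by
      intro z hz
      obtain ⟨ζ', hζ', rfl⟩ := hDrep _ z hz
      exact ⟨ζ', mem_closedBall_zero_iff.2 hζ'.le, rfl⟩
    have hKC : K ⊆ D ‖ζ‖ ∪ C := by
      rintro _ ⟨ζ', hζ', rfl⟩
      rw [mem_closedBall_zero_iff] at hζ'
      rcases hζ'.lt_or_eq with h | h
      · exact Or.inl (hDmem _ hζ.le _ h)
      · right
        refine ⟨(ζ' / ζ).arg, ?_⟩
        have h1 : ‖ζ' / ζ‖ = 1 := by rw [norm_div, h, div_self hρ.ne']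
        have h2 : Complex.exp (((ζ' / ζ).arg : ℂ) * Complex.I) = ζ' / ζ := by
          have := Complex.norm_mul_exp_arg_mul_I (ζ' / ζ)
          rwa [h1, Complex.ofReal_one, one_mul] at this
        show E k (e.symm (Complex.exp (((ζ' / ζ).arg : ℂ) * Complex.I) * ζ)) = _
        rw [h2, div_mul_cancel₀ _ hζ0]
    have hcomp : connectedComponentIn Cᶜ (pt k) ⊆ D ‖ζ‖ := by
      have hpC : pt k ∈ Cᶜ := by
        rintro ⟨t, ht⟩
        have h1 := hinj _ (hmem t) 0 (by rw [mem_closedBall_zero_iff, norm_zero]; exact hε.le)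
          (by rw [hs0]; exact ht)
        have h2 := hexp t ζ
        rw [h1, norm_zero] at h2
        exact hρ.ne h2
      apply IsPreconnected.subset_left_of_subset_union (hDopen ‖ζ‖) hK.isClosed.isOpen_compl
      · exact Set.disjoint_compl_right_iff_subset.2 hDK
      · intro z hz
        have hz' : z ∈ Cᶜ := connectedComponentIn_subset _ _ hz
        by_cases hzK : z ∈ K
        · rcases hKC hzK with h | h
          · exact Or.inl h
          · exact absurd h hz'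
        · exact Or.inr hzK
      · exact ⟨pt k, mem_connectedComponentIn hpC, hpD _ hρ hζ.le⟩
      · exact isPreconnected_connectedComponentIn
    exact hK.isBounded.subset (hcomp.trans hDK)

/-! ### The degree -/

/-- Restriction to the `x`-axis. -/
def res : MvPolynomial (Fin 2) ℝ →ₐ[ℝ] Polynomial ℝ := aeval ![Polynomial.X, 0]

lemma res_pderiv (p : MvPolynomial (Fin 2) ℝ) :
    res (pderiv 0 p) = Polynomial.derivative (res p) := by
  induction p using MvPolynomial.induction_on with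
  | C a => simp [res]
  | add p q hp hq => simp [hp, hq]
  | mul_X p i hp =>
    rw [pderiv_mul, map_add, map_mul, map_mul, hp, map_mul, Polynomial.derivative_mul]
    fin_cases i
    · simp [res]
    · simp [res, pderiv_X]

lemma res_Hk (k : ℕ) : res (Hk k) = Polynomial.X ^ (2 * k + 1) *
    ((Polynomial.X * (Polynomial.X ^ (2 * k + 3) - 1)) ^ 2 +
      (1 + Polynomial.X - Polynomial.C 3 * Polynomial.X ^ (2 * k + 4)) ^ 2) := by
  simp [res, Hk, Sk]
  ring

lemma coeff_res (k : ℕ) : (res (Hk k)).coeff (6 * k + 9) = 10 := by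
  rw [res_Hk, show 6 * k + 9 = (2 * (2 * k + 4)) + (2 * k + 1) by ring, Polynomial.coeff_X_pow_mul,
    Polynomial.coeff_add]
  have h1 : (Polynomial.X * (Polynomial.X ^ (2 * k + 3) - 1) : Polynomial ℝ).natDegree ≤
      2 * k + 4 := by
    compute_degree!
    omega
  have h2 : (1 + Polynomial.X - Polynomial.C 3 * Polynomial.X ^ (2 * k + 4) :
      Polynomial ℝ).natDegree ≤ 2 * k + 4 := by
    compute_degree!
  rw [Polynomial.coeff_pow_of_natDegree_le h1, Polynomial.coeff_pow_of_natDegree_le h2]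
  have h3 : (Polynomial.X * (Polynomial.X ^ (2 * k + 3) - 1) : Polynomial ℝ).coeff
      (2 * k + 4) = 1 := by
    rw [show 2 * k + 4 = (2 * k + 3) + 1 by ring, Polynomial.coeff_X_mul, Polynomial.coeff_sub,
      Polynomial.coeff_X_pow, Polynomial.coeff_one]
    simp
  have h4 : (1 + Polynomial.X - Polynomial.C 3 * Polynomial.X ^ (2 * k + 4) :
      Polynomial ℝ).coeff (2 * k + 4) = -3 := by
    simp [Polynomial.coeff_one, Polynomial.coeff_X]
  rw [h3, h4]
  norm_num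

lemma le_degree (k : ℕ) : 6 * k + 8 ≤ (pderiv 0 (Hk k)).totalDegree := by
  have h1 : (res (pderiv 0 (Hk k))).natDegree ≤ (pderiv 0 (Hk k)).totalDegree * 1 := by
    apply MvPolynomial.aeval_natDegree_le _ le_rfl
    intro i
    fin_cases i
    · simp
    · simp
  rw [mul_one] at h1
  refine le_trans ?_ h1
  apply Polynomial.le_natDegree_of_ne_zero
  rw [res_pderiv, Polynomial.coeff_derivative, coeff_res]
  positivity

lemma totalDegree_pderiv_le (i : Fin 2) (p : MvPolynomial (Fin 2) ℝ) :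
    (pderiv i p).totalDegree ≤ p.totalDegree - 1 := by
  classical
  conv_lhs => rw [← p.support_sum_monomial_coeff, map_sum]
  apply MvPolynomial.totalDegree_finsetSum_le
  intro s hs
  rw [pderiv_monomial]
  by_cases hsi : s i = 0
  · rw [hsi]
    simp
  · refine (totalDegree_monomial_le _ _).trans ?_
    have h1 : (s.sum fun _ e => e) ≤ p.totalDegree := le_totalDegree hs
    have h2 : (s.sum fun _ e => e) = ((s - Finsupp.single i 1).sum fun _ e => e) + 1 := by
      have : s = (s - Finsupp.single i 1) + Finsupp.single i 1 := by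
        ext j
        by_cases hj : j = i
        · subst hj
          simp
          omega
        · simp [Ne.symm hj]
      conv_lhs => rw [this]
      rw [Finsupp.sum_add_index' (by simp) (by simp)]
      simp
    show ((s - Finsupp.single i 1).sum fun _ e => e) ≤ _
    omega

lemma totalDegree_Hk_le (k : ℕ) (hk : 1 ≤ k) : (Hk k).totalDegree ≤ 6 * k + 9 := by
  have hX0 : (X 0 : MvPolynomial (Fin 2) ℝ).totalDegree ≤ 1 := (totalDegree_X _).le
  have hS : (Sk k).totalDegree ≤ 2 * k := by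
    refine (totalDegree_add _ _).trans (max_le ?_ ?_)
    · rw [totalDegree_X]; omega
    · rw [totalDegree_X_pow]
  have hA : (X 0 ^ 3 * Sk k - 1 : MvPolynomial (Fin 2) ℝ).totalDegree ≤ 2 * k + 3 := by
    refine (totalDegree_sub _ _).trans (max_le ?_ ?_)
    · refine (totalDegree_mul _ _).trans ?_
      rw [totalDegree_X_pow]
      omega
    · rw [totalDegree_one]; omega
  have hB : (1 + X 0 - C 3 * X 0 ^ 4 * Sk k : MvPolynomial (Fin 2) ℝ).totalDegree ≤ 2 * k + 4 := by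
    refine (totalDegree_sub _ _).trans (max_le ?_ ?_)
    · refine (totalDegree_add _ _).trans (max_le ?_ ?_)
      · rw [totalDegree_one]; omega
      · omega
    · refine (totalDegree_mul _ _).trans ?_
      have := totalDegree_mul (C 3 : MvPolynomial (Fin 2) ℝ) (X 0 ^ 4)
      rw [totalDegree_C, totalDegree_X_pow] at this
      omega
  unfold Hk
  refine (totalDegree_mul _ _).trans ?_
  have h1 := totalDegree_mul (X 0 : MvPolynomial (Fin 2) ℝ) (Sk k)
  have h2 : (X 0 ^ 2 * (X 0 ^ 3 * Sk k - 1) ^ 2 + (1 + X 0 - C 3 * X 0 ^ 4 * Sk k) ^ 2 :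
      MvPolynomial (Fin 2) ℝ).totalDegree ≤ 4 * k + 8 := by
    refine (totalDegree_add _ _).trans (max_le ?_ ?_)
    · refine (totalDegree_mul _ _).trans ?_
      have := totalDegree_pow (X 0 ^ 3 * Sk k - 1 : MvPolynomial (Fin 2) ℝ) 2
      rw [totalDegree_X_pow]
      omega
    · have := totalDegree_pow (1 + X 0 - C 3 * X 0 ^ 4 * Sk k : MvPolynomial (Fin 2) ℝ) 2
      omega
  omega

lemma fieldDegree_Hk (k : ℕ) (hk : 1 ≤ k) : fieldDegree (Hk k) = 6 * k + 8 := by
  have h := totalDegree_Hk_le k hk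
  have h0 := totalDegree_pderiv_le 0 (Hk k)
  have h1 := totalDegree_pderiv_le 1 (Hk k)
  have h2 := le_degree k
  unfold fieldDegree
  omega

/-- For every `k ≥ 1` there is a polynomial Hamiltonian system of even degree `6 k + 8` with an
isochronous center. -/
theorem result : ∀ k : ℕ, 1 ≤ k → ∃ (H : MvPolynomial (Fin 2) ℝ) (p : ℝ × ℝ),
    fieldDegree H = 6 * k + 8 ∧ IsIsochronousCenter H p :=
  fun k hk => ⟨Hk k, pt k, fieldDegree_Hk k hk, isochronous k⟩

end

end Pool.Agent.Results.MP_45b009_an.EvenDegree
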